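import Pool.Agent.H15.GEO.Cel
import Pool.Agent.H3.PM.Dat

/-!
# Near-constancy at the position in the slanted cells

`SfS`: the digits of the first sample in the slanted cells are nearly full (statement). `DrS`: the
derivatives of the slanted systems (statement). `nbS`: any finite family of polynomials of bounded
degree, which are functions of the label and of the cell, is nearly constant around the position of
the first sample in the slanted cell of depth `q`.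
-/

set_option autoImplicit false

namespace Pool.TUB

open Finset Real
open Pool.Agent.H49.Ent Pool.Agent.H32.Dense Pool.STK Pool.KA Pool.KSAT Pool.K2S Pool.PB
  Pool.STAT Pool.STAT.CLO Pool.GEN Pool.M3F Pool.KAF Pool.KAL Pool.KS3 Pool.KJA Pool.IEN Pool.EXS
open Pool.S6C Pool.KM7
open Pool.GEO (gsy gsy_tri xte)
open Pool.PM (PLab MNum MDat q2)

variable {m J : ℕ} {F : Fam m J}

/-- **Fullness of the digits in the slanted cells**, for the own leaf and for the leaf of the second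
sample. -/
def SfS (S : PCl m) (c : ℕ → Fin m) (N : MNum) (K D : ℕ) (b : ℝ) : Prop :=
  ∃ φ : ℝ, 0 < φ ∧ Bas S (fun J F A => ∀ (d : MDat N φ K D F c A) (lv : d.V → d.U → Fin 4 → ℝ)
    (Q : F.Ω × F.Ω → ℝ) (P : ℕ), IsLaw Q → (∀ e, Q e ≤ 2 * q2 F A ⌊N.w0 * J⌋₊ e) →
    (∀ e, 0 < Q e → d.lb.Shv c ⌊N.w0 * J⌋₊ ⌊b * J⌋₊ ⌊(N.fall - b) * J⌋₊ lv e) →
    ⌊N.w1 * J⌋₊ ≤ P → P ≤ J →
    (∀ i, wdS ⌊N.w0 * J⌋₊ d.gU ⌊(N.fall - b) * J⌋₊ i + ⌊4 * b * J⌋₊ ≤ P) →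
    ∀ R : F.Ω × F.Ω → d.lb.V₁ × (d.lb.V₀ × ℕ),
    (R = lbF d.lb ⌊N.w0 * J⌋₊ ∨ R = lbO d.lb ⌊N.w0 * J⌋₊) →
    ∑ i, Real.log (nwS P ⌊N.w0 * J⌋₊ d.gU ⌊(N.fall - b) * J⌋₊ 0 i) -
      CH Q (fun e => nrem (nwS P ⌊N.w0 * J⌋₊ d.gU ⌊(N.fall - b) * J⌋₊ 0)
          (dgS d.lb c ⌊N.w1 * J⌋₊ ⌊N.w0 * J⌋₊ P ⌊N.sN * J⌋₊ lv (R e) e.1))
        (fun e => (R e, nidx (nwS P ⌊N.w0 * J⌋₊ d.gU ⌊(N.fall - b) * J⌋₊ 0)
          (dgS d.lb c ⌊N.w1 * J⌋₊ ⌊N.w0 * J⌋₊ P ⌊N.sN * J⌋₊ lv (R e) e.1))) ≤ 9 * b * J)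

/-- **The derivatives of the slanted systems.** -/
def DrS (S : PCl m) (c : ℕ → Fin m) (N : MNum) (K D : ℕ) (b : ℝ) : Prop :=
  ∃ φ : ℝ, 0 < φ ∧ Bas S (fun J F A => ∀ (d : MDat N φ K D F c A) (lv : d.V → d.U → Fin 4 → ℝ)
    (e : F.Ω × F.Ω), A e.1 → A e.2 →
    d.lb.Shv c ⌊N.w0 * J⌋₊ ⌊b * J⌋₊ ⌊(N.fall - b) * J⌋₊ lv e →
    ∀ R : F.Ω × F.Ω → d.lb.V₁ × (d.lb.V₀ × ℕ),
    (R = lbF d.lb ⌊N.w0 * J⌋₊ ∨ R = lbO d.lb ⌊N.w0 * J⌋₊) →
    ∀ (i l : Fin 4) (x : Fin 4 → ℝ), |MvPolynomial.eval x (MvPolynomial.pderiv l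
      (sG d.lb ⌊N.w1 * J⌋₊ ⌊N.w0 * J⌋₊ lv (R e) i))| ≤ 2 ^ ⌊3 * b * J⌋₊)

/-- The samples of a pair are in the event. -/
theorem q2_mem {A : F.Ω → Prop} (hA : 0 < Pe F.p A) {W : ℕ} {Q : F.Ω × F.Ω → ℝ}
    (hQ : ∀ e, Q e ≤ 2 * q2 F A W e) {e : F.Ω × F.Ω} (he : 0 < Q e) :
    A e.1 ∧ A e.2 ∧ slam F W e.1 = slam F W e.2 := by
  have h1 : 0 < q2 F A W e := by
    have h2 := hQ e
    linarith
  obtain ⟨h2, h3, h4⟩ := (P2_pos (isLaw_cond F.isLaw hA) e).1 h1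
  exact ⟨cond_supp h2, cond_supp h3, h4⟩

/-- The exponents of the slanted cells. -/
theorem wdS_le {W₀ L X P : ℕ} {g : ℕ → ℕ} (h0 : W₀ + X ≤ P) (h1 : ∀ i < 2, g i + X ≤ P)
    (h2 : g 2 + L + X ≤ P) (i : Fin 4) : wdS W₀ g L i + X ≤ P := by
  unfold wdS
  split_ifs with a1 a2
  · exact h0
  · exact h2
  · refine h1 _ ?_
    have e1 : i.val ≠ 0 := fun h => a1 (Fin.ext h)
    have e2 : i.val ≠ 3 := fun h => a2 (Fin.ext h)
    have := i.2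
    omega

/-- **Near-constancy at the position in the slanted cells.** -/
theorem nbS {c₀ : ℝ} (hc₀ : 0 < c₀) : ∃ Cs : ℝ, 1 ≤ Cs ∧ ∀ {m : ℕ} {S : PCl m} {c : ℕ → Fin m}
    {N : MNum} {K D : ℕ} {b qq : ℝ}, Bas S (fun _ F A => 0 < Pe F.p A) → 0 < b → 0 ≤ qq →
    0 ≤ N.w0 → N.w0 ≤ N.w1 → N.w0 ≤ N.β 2 + b → 0 ≤ N.fall →
    (∀ i < 3, N.β i + N.fall + qq + (Cs + 5) * b ≤ N.gN) →
    SfS S c N K D b → DrS S c N K D b → ∀ (K' : ℕ) (ι : Type) [Fintype ι],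
    ∃ φ : ℝ, 0 < φ ∧ Bas S (fun J F A => ∀ (d : MDat N φ K D F c A)
      (lv : d.V → d.U → Fin 4 → ℝ) (Q : F.Ω × F.Ω → ℝ), IsLaw Q →
      (∀ e, Q e ≤ 2 * q2 F A ⌊N.w0 * J⌋₊ e) →
      (∀ e, 0 < Q e → d.lb.Shv c ⌊N.w0 * J⌋₊ ⌊b * J⌋₊ ⌊(N.fall - b) * J⌋₊ lv e) →
      ∀ R : F.Ω × F.Ω → d.lb.V₁ × (d.lb.V₀ × ℕ),
      (R = lbF d.lb ⌊N.w0 * J⌋₊ ∨ R = lbO d.lb ⌊N.w0 * J⌋₊) →
      ∀ PP : (d.lb.V₁ × (d.lb.V₀ × ℕ)) × (Fin 4 → ℤ) → ι → MvPolynomial (Fin 4) ℝ,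
      (∀ x j, (PP x j).totalDegree ≤ K') →
      ms Q (fun e => ¬ ∀ j, Nb (2 / 2 ^ ⌊Cs * b * J⌋₊)
        (poS d.lb c ⌊N.w1 * J⌋₊ ⌊N.w0 * J⌋₊ d.Pr ⌊(N.fall - b) * J⌋₊ ⌊qq * J⌋₊ lv (R e)
          (ceS d.lb c ⌊N.w1 * J⌋₊ ⌊N.w0 * J⌋₊ d.Pr ⌊N.sN * J⌋₊ ⌊(N.fall - b) * J⌋₊ ⌊qq * J⌋₊ lv
            (R e) e.1) e.1)
        (PP (R e, ceS d.lb c ⌊N.w1 * J⌋₊ ⌊N.w0 * J⌋₊ d.Pr ⌊N.sN * J⌋₊ ⌊(N.fall - b) * J⌋₊
          ⌊qq * J⌋₊ lv (R e) e.1) j)) ≤ c₀) := by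
  classical
  refine ⟨20 / c₀ + 2, by
    have : 0 < 20 / c₀ := by positivity
    linarith, ?_⟩
  intro m S c N K D b qq hpos hb hqq hw0 hw01 hw0β hfall hroom hful hder K' ι _
  obtain ⟨Cs, hCs⟩ : ∃ Cs : ℝ, Cs = 20 / c₀ + 2 := ⟨_, rfl⟩
  rw [← hCs] at hroom ⊢
  have hc20 : 0 < 20 / c₀ := by positivity
  have hCs2 : 2 < Cs := by rw [hCs]; linarith
  obtain ⟨φ₁, hφ₁, hful⟩ := hful
  obtain ⟨φ₂, hφ₂, hder⟩ := hder
  obtain ⟨C, hC, hnb⟩ := nbi_ev 4 K' ι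
  obtain ⟨φ, hφ⟩ : ∃ φ : ℝ, φ = min (min φ₁ φ₂) (b / 4) := ⟨_, rfl⟩
  have hφ0 : 0 < φ := by
    rw [hφ]
    exact lt_min (lt_min hφ₁ hφ₂) (by linarith)
  have hφ1 : φ ≤ φ₁ := by
    rw [hφ]
    exact (min_le_left _ _).trans (min_le_left _ _)
  have hφ2 : φ ≤ φ₂ := by
    rw [hφ]
    exact (min_le_left _ _).trans (min_le_right _ _)
  have hφb : φ ≤ b / 4 := by
    rw [hφ]
    exact min_le_right _ _
  -- the large numbers
  obtain ⟨J₁, hJ₁⟩ := exists_nat_ge ((Real.log C + 1 / c₀ + 2) / b)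
  obtain ⟨J₂, hJ₂⟩ := exists_nat_ge (16 / b)
  refine ⟨φ, hφ0, ((hpos.and (hful.and hder)).mono (max J₁ (max J₂ 1)) ?_)⟩
  rintro J hJ F A ⟨hA, hful, hder⟩ d lv Q hQ hQ2 hsh R hR PP hPP
  have hJ1 : (J₁ : ℝ) ≤ J := by exact_mod_cast (le_max_left _ _).trans hJ
  have hJ2 : (J₂ : ℝ) ≤ J := by
    exact_mod_cast ((le_max_left _ _).trans (le_max_right _ _)).trans hJ
  have hJ3 : (1 : ℝ) ≤ J := by
    exact_mod_cast ((le_max_right _ _).trans (le_max_right J₁ _)).trans hJ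
  have hJ0 : (0 : ℝ) < J := by linarith
  have n1 : Real.log C + 1 / c₀ + 2 ≤ b * J := by
    have h1 := hJ₁.trans hJ1
    rw [div_le_iff₀ hb] at h1
    linarith
  have n2 : 16 ≤ b * J := by
    have h1 := hJ₂.trans hJ2
    rw [div_le_iff₀ hb] at h1
    linarith
  obtain ⟨W0, hW0⟩ : ∃ W, W = ⌊N.w0 * J⌋₊ := ⟨_, rfl⟩
  obtain ⟨W1, hW1⟩ : ∃ W, W = ⌊N.w1 * J⌋₊ := ⟨_, rfl⟩
  obtain ⟨L, hL⟩ : ∃ L, L = ⌊(N.fall - b) * J⌋₊ := ⟨_, rfl⟩
  obtain ⟨q, hq⟩ : ∃ q, q = ⌊qq * J⌋₊ := ⟨_, rfl⟩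
  obtain ⟨ls, hls⟩ : ∃ ls, ls = ⌊Cs * b * J⌋₊ := ⟨_, rfl⟩
  obtain ⟨sg, hsg⟩ : ∃ sg, sg = ⌊N.sN * J⌋₊ := ⟨_, rfl⟩
  obtain ⟨t3, ht3⟩ : ∃ t3, t3 = ⌊3 * b * J⌋₊ := ⟨_, rfl⟩
  rw [← hW0] at hQ2 hsh hR ⊢
  rw [← hW1, ← hL, ← hq, ← hls, ← hsg]
  rw [← hL] at hsh
  have hφJ : φ * J ≤ b / 4 * J := mul_le_mul_of_nonneg_right hφb hJ0.le
  have hφ1J : 0 ≤ φ * J := by positivity
  -- the numbers
  have f0 : (W0 : ℝ) ≤ N.w0 * J := by
    rw [hW0]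
    exact Nat.floor_le (by positivity)
  have fL : (L : ℝ) ≤ N.fall * J := by
    rcases le_or_gt (N.fall - b) 0 with h | h
    · have h1 : L = 0 := by
        rw [hL]
        exact Nat.floor_of_nonpos (mul_nonpos_of_nonpos_of_nonneg h hJ0.le)
      rw [h1]
      push_cast
      positivity
    · rw [hL]
      refine (Nat.floor_le (by positivity)).trans ?_
      exact mul_le_mul_of_nonneg_right (by linarith) hJ0.le
  have fq : (q : ℝ) ≤ qq * J := by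
    rw [hq]
    exact Nat.floor_le (by positivity)
  have fls : (ls : ℝ) ≤ Cs * b * J := by
    rw [hls]
    exact Nat.floor_le (by positivity)
  have fls' : Cs * b * J < ls + 1 := by
    rw [hls]
    exact Nat.lt_floor_add_one _
  have ft3 : (t3 : ℝ) ≤ 3 * b * J := by
    rw [ht3]
    exact Nat.floor_le (by positivity)
  have hPr : (N.gN - 2 * φ) * J ≤ d.Pr := by
    have h1 := d.Pr_ge
    have h2 := (abs_le.1 d.numN).1
    linarith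
  have hfJ : 0 ≤ N.fall * J := by positivity
  have rm : ∀ i < 3, N.β i * J + N.fall * J + qq * J + (Cs * b * J + 5 * b * J) ≤ N.gN * J := by
    intro i hi
    have := mul_le_mul_of_nonneg_right (hroom i hi) hJ0.le
    linarith
  have hX : ((q + (ls + (t3 + 6)) : ℕ) : ℝ) ≤ qq * J + (Cs * b * J + (3 * b * J + 6)) := by
    push_cast
    linarith
  have hwd : ∀ i, wdS W0 d.gU L i + (q + (ls + (t3 + 6))) ≤ d.Pr := by
    refine wdS_le ?_ (fun i hi => ?_) ?_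
    · have h1 := rm 2 (by norm_num)
      have h2 : N.w0 * J ≤ (N.β 2 + b) * J := mul_le_mul_of_nonneg_right hw0β hJ0.le
      have h3 : ((W0 + (q + (ls + (t3 + 6))) : ℕ) : ℝ) ≤ d.Pr := by
        rw [Nat.cast_add]
        linarith
      exact_mod_cast h3
    · have h1 := rm i (by omega)
      have h2 := (abs_le.1 (d.numU i (by omega))).2
      have h3 : ((d.gU i + (q + (ls + (t3 + 6))) : ℕ) : ℝ) ≤ d.Pr := by
        rw [Nat.cast_add]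
        linarith
      exact_mod_cast h3
    · have h1 := rm 2 (by norm_num)
      have h2 := (abs_le.1 (d.numU 2 (by norm_num))).2
      have h3 : ((d.gU 2 + L + (q + (ls + (t3 + 6))) : ℕ) : ℝ) ≤ d.Pr := by
        rw [Nat.cast_add, Nat.cast_add]
        linarith
      exact_mod_cast h3
  have h4b : ⌊4 * b * J⌋₊ ≤ q + (ls + (t3 + 6)) := by
    have ft3' : 3 * b * J < t3 + 1 := by
      rw [ht3]
      exact Nat.lt_floor_add_one _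
    have h1 : (⌊4 * b * J⌋₊ : ℝ) ≤ 4 * b * J := Nat.floor_le (by positivity)
    have h2 : 2 * (b * J) ≤ Cs * (b * J) := mul_le_mul_of_nonneg_right hCs2.le (by positivity)
    have h3 : ((⌊4 * b * J⌋₊ : ℕ) : ℝ) ≤ ((q + (ls + (t3 + 6)) : ℕ) : ℝ) := by
      push_cast
      have : (0 : ℝ) ≤ q := Nat.cast_nonneg _
      linarith
    exact_mod_cast h3
  have hPrJ : d.Pr ≤ J := d.Pr_g.trans d.topN
  have hPrW : W1 ≤ d.Pr := by
    rw [hW1]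
    exact d.Pr_W
  -- fullness at the depth `q`
  have hfu := hful (d.mono hφ1) lv Q d.Pr hQ (by rw [← hW0]; exact hQ2)
    (by rw [← hW0, ← hL]; exact hsh) d.Pr_W hPrJ
    (fun i => by
      have h1 := hwd i
      rw [← hW0, ← hL]
      exact (Nat.add_le_add_left h4b _).trans h1) R (by rw [← hW0]; exact hR)
  rw [← hW0, ← hW1, ← hL, ← hsg] at hfu
  have hs0 : nwS d.Pr W0 d.gU L 0 = fun i => 2 ^ q * nwS d.Pr W0 d.gU L q i := by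
    have h1 := nwS_split (P := d.Pr) (W₀ := W0) (g := d.gU) (L := L) (q := 0) (X := q)
      (fun i => by
        have := hwd i
        omega)
    rwa [Nat.zero_add] at h1
  have hs1 : nwS d.Pr W0 d.gU L q = fun i => 2 ^ ls * nwS d.Pr W0 d.gU L (q + ls) i :=
    nwS_split fun i => by
      have := hwd i
      omega
  have hlow := low_ev hQ R (L := 2 ^ q) (N := nwS d.Pr W0 d.gU L q) Nat.one_le_two_pow
    (fun i => nwS_pos _ _ _ _ _ i)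
    (fun e => dgS d.lb c W1 W0 d.Pr sg lv (R e) e.1)
  rw [← hs0] at hlow
  have hs0' : ∀ i, (((2 ^ q * nwS d.Pr W0 d.gU L q i : ℕ)) : ℝ) = (nwS d.Pr W0 d.gU L 0 i : ℝ) := by
    intro i
    rw [hs0]
  simp only [hs0'] at hlow
  have hμ := hlow.trans hfu
  -- near-constancy
  obtain ⟨h, hh⟩ : ∃ h : ℝ, h = (9 * b * J + 1) / c₀ := ⟨_, rfl⟩
  have hh0 : 0 < h := by
    rw [hh]
    positivity
  have hres := hnb (F.Ω × F.Ω) ((d.lb.V₁ × (d.lb.V₀ × ℕ)) × (Fin 4 → ℤ)) Q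
    (fun e => (R e, ceS d.lb c W1 W0 d.Pr sg L q lv (R e) e.1)) (2 ^ ls)
    (nwS d.Pr W0 d.gU L (q + ls)) (fun e => dgS d.lb c W1 W0 d.Pr sg lv (R e) e.1)
    (fun γ => γ.2)
    (fun e => poS d.lb c W1 W0 d.Pr L q lv (R e) (ceS d.lb c W1 W0 d.Pr sg L q lv (R e) e.1) e.1)
    PP h (9 * b * J) hQ Nat.one_le_two_pow (fun i => nwS_pos _ _ _ _ _ i) hh0 ?_
    (fun e _ j => hPP _ j) ?_ ?_ ?_
  · push_cast at hres
    refine hres.trans ?_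
    rw [div_le_iff₀ hh0, hh]
    have h1 := Real.log_two_lt_d9
    have h2 : c₀ * ((9 * b * J + 1) / c₀) = 9 * b * J + 1 := by
      field_simp
    rw [h2]
    linarith
  · -- the number `L`
    have h1 : Real.log C + h ≤ ls * Real.log 2 := by
      have e1 : h = 9 / c₀ * (b * J) + 1 / c₀ := by
        rw [hh]
        field_simp
      have e2 : (1 : ℝ) / 2 ≤ Real.log 2 := by
        have := Real.log_two_gt_d9
        linarith
      have e3 : (ls : ℝ) * (1 / 2) ≤ ls * Real.log 2 :=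
        mul_le_mul_of_nonneg_left e2 (Nat.cast_nonneg _)
      have e4 : Cs * b * J = 20 / c₀ * (b * J) + 2 * (b * J) := by
        rw [hCs]
        ring
      have e5 : 0 ≤ 1 / c₀ * (b * J) := by positivity
      have e6 : 20 / c₀ * (b * J) = 2 * (9 / c₀ * (b * J)) + 2 * (1 / c₀ * (b * J)) := by ring
      linarith
    have h2 : Real.log C + h ≤ Real.log (2 ^ ls) := by
      rw [Real.log_pow]
      exact h1
    have h3 := Real.exp_le_exp.2 h2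
    rw [Real.exp_add, Real.exp_log (by linarith), Real.exp_log (by positivity)] at h3
    exact_mod_cast h3
  · -- the cell
    intro e _
    rw [← hs1]
    rfl
  · -- the position
    intro e he i
    obtain ⟨a1, a2, -⟩ := q2_mem hA hQ2 he
    have hd := hder (d.mono hφ2) lv e a1 a2 (by rw [← hW0, ← hL]; exact hsh e he) R
      (by rw [← hW0]; exact hR)
    rw [← hW0, ← hW1, ← ht3] at hd
    rw [← hs1]
    have h1 := pos_near (M := 2 ^ (d.Pr - W1)) (N := nwS d.Pr W0 d.gU L q)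
      (G := sG d.lb W1 W0 lv (R e)) (L := 2 ^ t3) (κ := 2) Nat.one_le_two_pow
      (fun i => nwS_pos _ _ _ _ _ i) (gsy_tri (sls_tri (d.tri _) _ _ _ _)) (by positivity)
      (by norm_num) (fun i l b => hd i l b)
      (x := bse (xte c 3 W1 d.Pr sg F e.1)) (p := bpx F c 3 W1 e.1)
      (fun i => bpx_near c 3 sg hPrW hPrJ e.1 i) i
    have h2 : (((2 ^ ls * nwS d.Pr W0 d.gU L (q + ls) i : ℕ)) : ℝ) =
        (nwS d.Pr W0 d.gU L q i : ℝ) := by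
      rw [hs1]
    rw [h2]
    refine h1.trans ?_
    have h3 : (0 : ℝ) < nwS d.Pr W0 d.gU L q i := by
      exact_mod_cast nwS_pos _ _ _ _ _ i
    rw [div_le_div_iff₀ h3 (by positivity)]
    have h4 : (2 : ℝ) ^ ls * 2 ^ (t3 + 6) ≤ nwS d.Pr W0 d.gU L q i := by
      rw [← pow_add]
      unfold nwS
      push_cast
      refine pow_le_pow_right₀ (by norm_num) ?_
      have := hwd i
      omega
    have h5 : (1 : ℝ) ≤ 2 ^ t3 := one_le_pow₀ (by norm_num)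
    have h6 : (2 : ℝ) ^ (t3 + 6) = 64 * 2 ^ t3 := by
      rw [pow_add]
      norm_num
      ring
    have h7 : (1 + 2 + ((4 : ℕ) : ℝ) * 2 ^ t3 * 2) ≤ 2 ^ (t3 + 6) := by
      rw [h6]
      push_cast
      linarith
    push_cast
    have h8 : (0 : ℝ) < 2 ^ ls := by positivity
    calc (1 + 2 + (4 : ℝ) * 2 ^ t3 * 2) * 2 ^ ls ≤ 2 ^ (t3 + 6) * 2 ^ ls := by
          refine mul_le_mul_of_nonneg_right ?_ h8.le
          exact_mod_cast h7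
      _ ≤ 1 * nwS d.Pr W0 d.gU L q i := by
          rw [one_mul, mul_comm]
          exact h4
  · -- fullness
    have hs1' : ∀ i, (((2 ^ ls * nwS d.Pr W0 d.gU L (q + ls) i : ℕ)) : ℝ) =
        (nwS d.Pr W0 d.gU L q i : ℝ) := by
      intro i
      rw [hs1]
    simp only [hs1']
    rw [← hs1]
    exact hμ

end Pool.TUB
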